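import Mathlib
import Pool.Agent.H32.PhyloData

namespace Pool.Agent.Results.MP_6c0529_co.Counter
open SimpleGraph Finset

/-- A semilabeled binary tree of size `n`. -/
structure BT (n : ℕ) where
  m : ℕ
  G : SimpleGraph (Fin m)
  lab : Fin n → Fin m
  tree : G.IsTree
  deg : ∀ v, (G.neighborSet v).ncard = 1 ∨ (G.neighborSet v).ncard = 3
  inj : Function.Injective lab
  leaf : ∀ v, (G.neighborSet v).ncard = 1 ↔ v ∈ Set.range lab

/-- Deleting all leaves leaves a path. -/
def IsCat {n : ℕ} (T : BT n) : Prop :=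
  ∃ k : ℕ, Nonempty (T.G.induce (Set.range T.lab)ᶜ ≃g pathGraph k)

/-- The partitions of the leaf labels obtained by deleting a set of edges. -/
def Parts {n : ℕ} (T : BT n) : Set (Setoid (Fin n)) :=
  {R | ∃ s : Set (Sym2 (Fin T.m)), ∀ i j, R i j ↔ (T.G.deleteEdges s).Reachable (T.lab i) (T.lab j)}

noncomputable def sMin (n : ℕ) : ℕ := sInf {x | ∃ T F : BT n, x = (Parts T ∩ Parts F).ncard}

noncomputable def cMin (n : ℕ) : ℕ :=
  sInf {x | ∃ T F : BT n, IsCat T ∧ IsCat F ∧ x = (Parts T ∩ Parts F).ncard}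

/-! ### caterpillars -/

def Conv {k : ℕ} (w : Fin 7 → Fin k) (R : Setoid (Fin 7)) : Prop :=
  ∀ a b c d, R a b → R c d → a ≠ b → c ≠ d → w a ≤ w c → w c ≤ w b → R a c

lemma reach_closed {V : Type} {H : SimpleGraph V} (I : V → Prop)
    (h : ∀ x y, H.Adj x y → I x → I y) {x y : V} (hr : H.Reachable x y) (hx : I x) : I y := by
  obtain ⟨p⟩ := hr
  induction p with
  | nil => exact hx
  | cons a _ ih => exact ih (h _ _ a hx)

structure CatData (T : BT 7) (k : ℕ) where
  p : Fin k → Fin T.m
  pos : Fin 7 → Fin k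
  pinj : Function.Injective p
  pne : ∀ t i, p t ≠ T.lab i
  all : ∀ v, (∃ i, v = T.lab i) ∨ ∃ t, v = p t
  padj : ∀ t u, T.G.Adj (p t) (p u) ↔ t.val + 1 = u.val ∨ u.val + 1 = t.val
  ladj : ∀ i v, T.G.Adj (T.lab i) v ↔ v = p (pos i)

lemma cat_data (T : BT 7) (h : IsCat T) : ∃ k, Nonempty (CatData T k) := by
  obtain ⟨k, ⟨φ⟩⟩ := h
  have hnb : ∀ i, ∃ v, T.G.neighborSet (T.lab i) = {v} := fun i =>
    Set.ncard_eq_one.1 ((T.leaf _).2 ⟨i, rfl⟩)
  choose nb hnb using hnb
  have hadj : ∀ i v, T.G.Adj (T.lab i) v ↔ v = nb i := by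
    intro i v
    rw [← mem_neighborSet, hnb i]; simp
  have hint : ∀ i, nb i ∈ (Set.range T.lab)ᶜ := by
    rintro i ⟨j, hj⟩
    have hij : T.G.Adj (T.lab i) (T.lab j) := (hadj i _).2 hj
    have hji : T.lab i = nb j := (hadj j _).1 hij.symm
    obtain ⟨l, hl1, hl2⟩ : ∃ l : Fin 7, l ≠ i ∧ l ≠ j :=
      (by decide : ∀ i j : Fin 7, ∃ l : Fin 7, l ≠ i ∧ l ≠ j) i j
    have := reach_closed (H := T.G) (fun v => v = T.lab i ∨ v = T.lab j) (by
      rintro x y hxy (rfl | rfl)
      · right; rw [(hadj i _).1 hxy, hj]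
      · left; rw [(hadj j _).1 hxy, hji]) (T.tree.connected.preconnected (T.lab i) (T.lab l))
      (Or.inl rfl)
    rcases this with h | h
    · exact hl1 (T.inj h)
    · exact hl2 (T.inj h)
  refine ⟨k, ⟨⟨fun t => (φ.symm t).1, fun i => φ ⟨nb i, hint i⟩, ?_, ?_, ?_, ?_, ?_⟩⟩⟩
  · intro t u h
    exact φ.symm.injective (Subtype.ext h)
  · intro t i h
    exact (φ.symm t).2 ⟨i, h.symm⟩
  · intro v
    by_cases hv : v ∈ Set.range T.lab
    · obtain ⟨i, rfl⟩ := hv; exact Or.inl ⟨i, rfl⟩
    · exact Or.inr ⟨φ ⟨v, hv⟩, by simp⟩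
  · intro t u
    rw [← pathGraph_adj, ← φ.symm.map_adj_iff]
    rfl
  · intro i v
    rw [hadj]; simp

lemma fib_card {T : BT 7} {k : ℕ} (C : CatData T k) (t : Fin k) :
    (univ.filter fun i => C.pos i = t).card +
      (univ.filter fun u : Fin k => t.val + 1 = u.val ∨ u.val + 1 = t.val).card = 3 := by
  have h3 : (T.G.neighborSet (C.p t)).ncard = 3 := by
    refine (T.deg _).resolve_left fun h => ?_
    obtain ⟨i, hi⟩ := (T.leaf _).1 h
    exact C.pne t i hi.symm
  have e : T.G.neighborSet (C.p t) =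
      (((univ.filter fun i => C.pos i = t).image T.lab ∪
        (univ.filter fun u : Fin k => t.val + 1 = u.val ∨ u.val + 1 = t.val).image C.p :
          Finset (Fin T.m)) : Set (Fin T.m)) := by
    ext v
    simp only [mem_neighborSet, coe_union, coe_image, coe_filter, mem_univ, true_and,
      Set.mem_union, Set.mem_image, Set.mem_ofPred_eq]
    constructor
    · intro h
      rcases C.all v with ⟨i, rfl⟩ | ⟨u, rfl⟩
      · exact Or.inl ⟨i, (C.pinj ((C.ladj i _).1 h.symm)).symm, rfl⟩
      · exact Or.inr ⟨u, (C.padj _ _).1 h, rfl⟩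
    · rintro (⟨i, rfl, rfl⟩ | ⟨u, hu, rfl⟩)
      · exact ((C.ladj i _).2 rfl).symm
      · exact (C.padj _ _).2 hu
  rw [e, Set.ncard_coe_finset, card_union_of_disjoint, card_image_of_injective _ T.inj,
    card_image_of_injective _ C.pinj] at h3
  · exact h3
  · rw [Finset.disjoint_left]
    intro v h1 h2
    obtain ⟨i, _, rfl⟩ := mem_image.1 h1
    obtain ⟨u, _, hu⟩ := mem_image.1 h2
    exact C.pne u i hu

lemma k_eq {T : BT 7} {k : ℕ} (C : CatData T k) : k = 5 := by
  have hs : ∑ t : Fin k, (univ.filter fun i => C.pos i = t).card = 7 := by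
    rw [← card_eq_sum_card_fiberwise (f := C.pos) (s := univ) (t := univ) (by simp)]
    simp
  have h2 : ∀ t : Fin k,
      (univ.filter fun u : Fin k => t.val + 1 = u.val ∨ u.val + 1 = t.val).card ≤ 2 := by
    intro t
    calc _ ≤ ({t.val + 1, t.val - 1} : Finset ℕ).card := by
          apply card_le_card_of_injOn (fun u : Fin k => u.val)
          · intro u hu
            simp only [coe_filter, mem_univ, true_and, Set.mem_ofPred_eq] at hu
            simp only [coe_insert, coe_singleton, Set.mem_insert_iff, Set.mem_singleton_iff]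
            omega
          · intro u _ v _ h; exact Fin.ext h
      _ ≤ 2 := card_le_two
  have hk : k ≤ 7 := by
    calc k = ∑ _t : Fin k, 1 := by simp
      _ ≤ _ := sum_le_sum fun t _ => by have := fib_card C t; have := h2 t; omega
      _ = 7 := hs
  have h3 : ∑ t : Fin k, (3 - (univ.filter fun u : Fin k =>
      t.val + 1 = u.val ∨ u.val + 1 = t.val).card) = 7 := by
    rw [← hs]; exact sum_congr rfl fun t _ => by have := fib_card C t; omega
  clear hs h2 C
  interval_cases k <;> first | rfl | (exfalso; revert h3; decide)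

lemma conv_mem {T : BT 7} {k : ℕ} (C : CatData T k) {R : Setoid (Fin 7)} (hR : Conv C.pos R) :
    R ∈ Parts T := by
  classical
  let K : SimpleGraph (Fin T.m) := SimpleGraph.fromRel fun x y =>
    (∃ i d, d ≠ i ∧ R i d ∧ x = T.lab i ∧ y = C.p (C.pos i)) ∨
      ∃ (t u : Fin k) (a b : Fin 7), t.val + 1 = u.val ∧ R a b ∧ C.pos a ≤ t ∧ u ≤ C.pos b ∧
        x = C.p t ∧ y = C.p u
  have hK : T.G.deleteEdges (K.edgeSet)ᶜ = K := by
    ext x y
    simp only [deleteEdges_adj, Set.mem_compl_iff, mem_edgeSet, not_not]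
    refine ⟨fun h => h.2, fun h => ⟨?_, h⟩⟩
    have key : ∀ x y, ((∃ i d, d ≠ i ∧ R i d ∧ x = T.lab i ∧ y = C.p (C.pos i)) ∨
      ∃ (t u : Fin k) (a b : Fin 7), t.val + 1 = u.val ∧ R a b ∧ C.pos a ≤ t ∧ u ≤ C.pos b ∧
        x = C.p t ∧ y = C.p u) → T.G.Adj x y := by
      rintro x y (⟨i, d, -, -, rfl, rfl⟩ | ⟨t, u, a, b, h, -, -, -, rfl, rfl⟩)
      · exact (C.ladj _ _).2 rfl
      · exact (C.padj _ _).2 (Or.inl h)
    rcases (fromRel_adj _ _ _).1 h with ⟨_, h | h⟩
    · exact key _ _ h
    · exact (key _ _ h).symm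
  refine ⟨(K.edgeSet)ᶜ, fun i j => ?_⟩
  rw [hK]
  have up : ∀ a b, R a b → ∀ (n : ℕ) (t : Fin k), t.val = (C.pos a).val + n → t ≤ C.pos b →
      K.Reachable (C.p (C.pos a)) (C.p t) := by
    intro a b hab n
    induction n with
    | zero => intro t ht _; rw [show t = C.pos a from Fin.ext ht]
    | succ n ih =>
      intro t ht hb
      have hb' : t.val ≤ (C.pos b).val := hb
      let t' : Fin k := ⟨(C.pos a).val + n, by have := t.2; omega⟩
      refine (ih t' rfl (show (C.pos a).val + n ≤ (C.pos b).val by omega)).trans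
        (Adj.reachable ((fromRel_adj _ _ _).2 ⟨?_, Or.inl (Or.inr ⟨t', t, a, b, ?_, hab, ?_, hb,
          rfl, rfl⟩)⟩))
      · intro h
        have := congrArg Fin.val (C.pinj h)
        simp only [t'] at this; omega
      · simp only [t']; omega
      · exact show (C.pos a).val ≤ (C.pos a).val + n by omega
  have lf : ∀ a b, R a b → b ≠ a → K.Reachable (T.lab a) (C.p (C.pos a)) := fun a b h hne =>
    Adj.reachable ((fromRel_adj _ _ _).2 ⟨(C.pne _ _).symm, Or.inl (Or.inl ⟨a, b, hne, h, rfl, rfl⟩)⟩)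
  have fw : ∀ a b, R a b → a ≠ b → C.pos a ≤ C.pos b → K.Reachable (T.lab a) (T.lab b) := by
    intro a b h hne hle
    have hle' : (C.pos a).val ≤ (C.pos b).val := hle
    exact ((lf a b h hne.symm).trans (up a b h ((C.pos b).val - (C.pos a).val) (C.pos b)
      (by omega) le_rfl)).trans (lf b a (R.symm h) hne).symm
  constructor
  · intro h
    by_cases hij : i = j
    · subst hij; rfl
    · rcases le_total (C.pos i) (C.pos j) with l | l
      · exact fw i j h hij l
      · exact (fw j i (R.symm h) (Ne.symm hij) l).symm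
  · intro h
    -- a point of a non-singleton class inside the span of a non-singleton class
    have ins : ∀ a b c d e, R a b → R a e → e ≠ a → R c d → c ≠ d → C.pos a ≤ C.pos c →
        C.pos c ≤ C.pos b → R a c := by
      intro a b c d e hab hae hea hcd hne l1 l2
      by_cases h : a = b
      · subst h
        rcases le_total (C.pos a) (C.pos e) with l | l
        · exact hR a e c d hae hcd hea.symm hne l1 (l2.trans l)
        · exact R.trans hae (hR e a c d (R.symm hae) hcd hea hne (l.trans l1) l2)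
      · exact hR a b c d hab hcd h hne l1 l2
    have other : ∀ a e x, R a e → e ≠ a → R a x → ∃ y, y ≠ x ∧ R x y := by
      intro a e x h1 h2 h3
      by_cases h : x = a
      · subst h; exact ⟨e, h2, h1⟩
      · exact ⟨a, Ne.symm h, R.symm h3⟩
    have meet : ∀ a b c d e (t : Fin k), R a b → R a e → e ≠ a → R c d → c ≠ d → C.pos a ≤ t →
        t ≤ C.pos b → C.pos c ≤ t → t ≤ C.pos d → R a c := by
      intro a b c d e t hab hae hea hcd hne l1 l2 l3 l4
      rcases le_total (C.pos a) (C.pos c) with l | l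
      · exact ins a b c d e hab hae hea hcd hne l (l3.trans l2)
      · exact R.symm (hR c d a e hcd hae hne hea.symm l (l1.trans l4))
    have := reach_closed (H := K) (fun v => (∃ j, R i j ∧ v = T.lab j) ∨
      ∃ (t : Fin k) (a b e : Fin 7), R i a ∧ R a b ∧ R a e ∧ e ≠ a ∧ C.pos a ≤ t ∧ t ≤ C.pos b ∧
        v = C.p t) ?_ h (Or.inl ⟨i, R.refl i, rfl⟩)
    · rcases this with ⟨j', h1, h2⟩ | ⟨t, a, b, e, -, -, -, -, -, -, h2⟩
      · rw [T.inj h2]; exact h1
      · exact absurd h2.symm (C.pne _ _)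
    · intro x y hxy hx
      rcases (fromRel_adj _ _ _).1 hxy with ⟨_, h | h⟩
      · rcases h with ⟨c, d, hd, hcd, rfl, rfl⟩ | ⟨t, u, c, d, htu, hcd, l1, l2, rfl, rfl⟩
        · rcases hx with ⟨j', h1, h2⟩ | ⟨t, a, b, e, -, -, -, -, -, -, h2⟩
          · rw [← T.inj h2] at h1
            exact Or.inr ⟨C.pos c, c, c, d, h1, R.refl c, hcd, hd, le_rfl, le_rfl, rfl⟩
          · exact absurd h2.symm (C.pne _ _)
        · rcases hx with ⟨j', h1, h2⟩ | ⟨t', a, b, e, h1, h2, h3, h4, h5, h6, h7⟩
          · exact absurd h2 (C.pne _ _)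
          · obtain rfl := C.pinj h7
            have ltu : t ≤ u := show t.val ≤ u.val by omega
            have hne : c ≠ d := by
              rintro rfl
              have a1 : (C.pos c).val ≤ t.val := l1
              have a2 : u.val ≤ (C.pos c).val := l2
              omega
            have := meet a b c d e t h2 h3 h4 hcd hne h5 h6 l1 (ltu.trans l2)
            exact Or.inr ⟨u, c, d, d, R.trans h1 this, hcd, hcd, hne.symm, l1.trans ltu, l2, rfl⟩
      · rcases h with ⟨c, d, hd, hcd, rfl, rfl⟩ | ⟨t, u, c, d, htu, hcd, l1, l2, rfl, rfl⟩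
        · rcases hx with ⟨j', h1, h2⟩ | ⟨t, a, b, e, h1, h2, h3, h4, h5, h6, h7⟩
          · exact absurd h2 (C.pne _ _)
          · obtain rfl := C.pinj h7
            exact Or.inl ⟨c, R.trans h1 (ins a b c d e h2 h3 h4 hcd hd.symm h5 h6), rfl⟩
        · rcases hx with ⟨j', h1, h2⟩ | ⟨t', a, b, e, h1, h2, h3, h4, h5, h6, h7⟩
          · exact absurd h2 (C.pne _ _)
          · obtain rfl := C.pinj h7
            have ltu : t ≤ u := show t.val ≤ u.val by omega
            have hne : c ≠ d := by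
              rintro rfl
              have a1 : (C.pos c).val ≤ t.val := l1
              have a2 : u.val ≤ (C.pos c).val := l2
              omega
            have := meet a b c d e u h2 h3 h4 hcd hne h5 h6 (l1.trans ltu) l2
            exact Or.inr ⟨t, c, d, d, R.trans h1 this, hcd, hcd, hne.symm, l1, ltu.trans l2, rfl⟩

/-! ### counting -/
open Pool.Agent.H32.Phylo

instance finS : Finite (Setoid (Fin 7)) :=
  Finite.of_injective (fun R : Setoid (Fin 7) => R.r) fun _ _ h => Setoid.ext fun a b => by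
    exact iff_of_eq (congrFun (congrFun h a) b)

def kerL (l : List ℕ) : Setoid (Fin 7) := Setoid.ker fun i : Fin 7 => l.getD i 0

lemma mem_R7 (i : Fin 7) : i.val ∈ R7 := by revert i; decide
lemma mem_R5 (i : Fin 5) : i.val ∈ R5 := by revert i; decide

def q : Fin 7 → Fin 5 := ![0, 0, 1, 2, 3, 4, 4]

lemma conv_of_tst {e : List ℕ × List (ℕ × ℕ × ℕ)} (he : good e = true) (w : Fin 7 → Fin 5)
    (l : ℕ) (hl : ∀ i : Fin 7, dg l i = (w i).val) (ht : tst l e = true) :
    Conv w (kerL e.1) := by
  intro a b c d hab hcd h1 h2 l1 l2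
  simp only [good, Bool.and_eq_true, List.all_eq_true, Bool.or_eq_true, Nat.beq_eq,
    Bool.not_eq_true', decide_eq_true_eq] at he
  have hab' : e.1.getD a 0 = e.1.getD b 0 := hab
  have hcd' : e.1.getD c 0 = e.1.getD d 0 := hcd
  by_contra hac
  have h := he.2 a (mem_R7 a) b (mem_R7 b)
  rcases h with (h | h) | h
  · exact h1 (Fin.ext h)
  · rw [hab'] at h; simp at h
  · rcases h c (mem_R7 c) with (h | h) | h
    · exact hac h
    · rcases h d (mem_R7 d) with h | h
      · exact h2 (Fin.ext h)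
      · rw [hcd'] at h; simp at h
    · simp only [tst, List.all_eq_true] at ht
      have := ht _ h
      simp only [hl, Bool.not_eq_true', Bool.and_eq_false_iff] at this
      have a1 : Nat.ble (w a) (w c) = true := Nat.ble_eq.mpr l1
      have a2 : Nat.ble (w c) (w b) = true := Nat.ble_eq.mpr l2
      rw [a1, a2] at this
      simp at this

lemma ker_inj {e f : List ℕ × List (ℕ × ℕ × ℕ)} (he : good e = true) (hf : good f = true)
    (h : kerL e.1 = kerL f.1) : e.1 = f.1 := by
  simp only [good, Bool.and_eq_true, List.all_eq_true, Nat.beq_eq, Nat.ble_eq] at he hf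
  obtain ⟨⟨⟨e1, e2⟩, -⟩, -⟩ := he
  obtain ⟨⟨⟨f1, f2⟩, -⟩, -⟩ := hf
  have key : ∀ x y : List ℕ, kerL x = kerL y →
      (∀ a ∈ R7, x.getD a 0 ≤ a ∧ x.getD (x.getD a 0) 0 = x.getD a 0) →
      (∀ a ∈ R7, y.getD a 0 ≤ a ∧ y.getD (y.getD a 0) 0 = y.getD a 0) →
      ∀ i : Fin 7, x.getD i 0 ≤ y.getD i 0 := by
    intro x y h hx hy i
    obtain ⟨a1, a2⟩ := hy i (mem_R7 i)
    let j : Fin 7 := ⟨y.getD i 0, by have := i.2; omega⟩
    have h1 : kerL y j i := a2
    rw [← h] at h1
    have h2 : x.getD j 0 = x.getD i 0 := h1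
    rw [← h2]
    exact (hx j (mem_R7 j)).1
  apply List.ext_getElem (by omega)
  intro i h1 h2
  have := le_antisymm (key _ _ h e1 f1 ⟨i, by omega⟩) (key _ _ h.symm f1 e1 ⟨i, by omega⟩)
  simpa [List.getD_eq_getElem?_getD, h1, h2] using this

lemma low_all (a b : Fin 5) : low a b = true := by
  fin_cases a <;> fin_cases b
  exacts [low00, low01, low02, low03, low04, low10, low11, low12, low13, low14, low20, low21, low22, low23, low24, low30, low31, low32, low33, low34, low40, low41, low42, low43, low44]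

lemma dg_enc (r : Fin 7 → ℕ) (h : ∀ i, r i < 8) (i : Fin 7) :
    dg (enc (r 0) (r 1) (r 2) (r 3) (r 4) (r 5) (r 6)) i = r i := by
  have h0 := h 0; have h1 := h 1; have h2 := h 2; have h3 := h 3; have h4 := h 4
  have h5 := h 5; have h6 := h 6
  have e : ∀ w j : ℕ, dg w j = w / 8 ^ j % 8 := fun _ _ => rfl
  rw [e, enc]
  fin_cases i <;> simp <;> omega

lemma sum_fib (w : Fin 7 → Fin 5) : ∑ i, 8 ^ (w i).val =
    ∑ t : Fin 5, (univ.filter fun i => w i = t).card * 8 ^ t.val := by
  rw [← Finset.sum_fiberwise univ w]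
  refine sum_congr rfl fun t _ => ?_
  rw [← smul_eq_mul, ← sum_const]
  exact sum_congr rfl fun i hi => by rw [(mem_filter.1 hi).2]

lemma count_low (w : Fin 7 → Fin 5)
    (hw : ∀ t, (univ.filter fun i => w i = t).card = (univ.filter fun i => q i = t).card) :
    126 ≤ {R | Conv q R ∧ Conv w R}.ncard := by
  classical
  have hf : ∑ i, 8 ^ (w i).val = 8778 := by
    rw [sum_fib]; simp only [hw]; decide
  rw [Fin.sum_univ_seven] at hf
  have h := low_all (w 0) (w 1)
  simp only [low, List.all_eq_true, Bool.or_eq_true] at h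
  have h := h _ (mem_R5 (w 2)) _ (mem_R5 (w 3)) _ (mem_R5 (w 4)) _
    (mem_R5 (w 5)) _ (mem_R5 (w 6))
  rw [hf] at h
  have h := Nat.ble_eq.mp (h.resolve_left (by decide))
  set l : ℕ := enc (w 0) (w 1) (w 2) (w 3) (w 4) (w 5) (w 6) with hl
  have hg : ∀ e ∈ D, good e = true := List.all_eq_true.1 D_good
  have hnd : ((D.filter (tst l)).map fun e => kerL e.1).Nodup := by
    refine List.Nodup.map_on ?_ ((List.Nodup.of_map _ D_nodup).filter _)
    intro e he f hf hef
    have he' := (List.mem_filter.1 he).1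
    have hf' := (List.mem_filter.1 hf).1
    exact List.inj_on_of_nodup_map D_nodup he' hf' (ker_inj (hg e he') (hg f hf') hef)
  calc 126 ≤ ((D.filter (tst l)).map fun e => kerL e.1).length := by rwa [List.length_map]
    _ = ((D.filter (tst l)).map fun e => kerL e.1).toFinset.card :=
        (List.toFinset_card_of_nodup hnd).symm
    _ ≤ _ := by
      rw [← Set.ncard_coe_finset]
      refine Set.ncard_le_ncard ?_ (Set.toFinite _)
      intro R hR
      simp only [List.coe_toFinset, List.mem_map, List.mem_filter, Set.mem_ofPred_eq] at hR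
      obtain ⟨e, ⟨he, ht⟩, rfl⟩ := hR
      refine ⟨conv_of_tst (hg e he) q (enc 0 0 1 2 3 4 4) (by decide) ?_,
        conv_of_tst (hg e he) w l (dg_enc (fun i => (w i).val) fun i => by have := (w i).2; omega) ht⟩
      have := hg e he
      simp only [good, Bool.and_eq_true] at this
      exact this.1.2

lemma fib_q {T : BT 7} (C : CatData T 5) (t : Fin 5) :
    (univ.filter fun i => C.pos i = t).card = (univ.filter fun i => q i = t).card := by
  have h := fib_card C t
  have h2 : ∀ t : Fin 5, (univ.filter fun i => q i = t).card +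
      (univ.filter fun u : Fin 5 => t.val + 1 = u.val ∨ u.val + 1 = t.val).card = 3 := by decide
  have := h2 t
  omega

lemma cat_low (T F : BT 7) (hT : IsCat T) (hF : IsCat F) : 126 ≤ (Parts T ∩ Parts F).ncard := by
  obtain ⟨k, ⟨C⟩⟩ := cat_data T hT
  obtain ⟨k', ⟨C'⟩⟩ := cat_data F hF
  obtain rfl := k_eq C
  obtain rfl := k_eq C'
  let σ : Fin 7 ≃ Fin 7 := Equiv.ofFiberEquiv (f := q) (g := C.pos) fun t =>
    Fintype.equivOfCardEq (by rw [Fintype.card_subtype, Fintype.card_subtype, fib_q C t])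
  have hσ : ∀ i, C.pos (σ i) = q i := fun i => Equiv.ofFiberEquiv_map _ i
  have h := count_low (C'.pos ∘ σ) (fun t => by
    rw [← fib_q C' t]
    exact card_bij (fun i _ => σ i) (by simp) (by simp) (fun b hb => ⟨σ.symm b, by simpa using hb, by simp⟩))
  refine h.trans (Set.ncard_le_ncard_of_injOn (fun R => Setoid.comap σ.symm R) ?_ ?_ (Set.toFinite _))
  · rintro R ⟨h1, h2⟩
    refine ⟨conv_mem C ?_, conv_mem C' ?_⟩
    · intro a b c d hab hcd n1 n2 l1 l2
      refine h1 _ _ _ _ hab hcd (σ.symm.injective.ne n1) (σ.symm.injective.ne n2) ?_ ?_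
      · simpa [← hσ] using l1
      · simpa [← hσ] using l2
    · intro a b c d hab hcd n1 n2 l1 l2
      refine h2 _ _ _ _ hab hcd (σ.symm.injective.ne n1) (σ.symm.injective.ne n2) ?_ ?_
      · simpa using l1
      · simpa using l2
  · intro R _ S _ h
    exact Setoid.comap_injective σ.symm σ.symm.surjective h

/-! ### the explicit pair -/

def mkG (E : List (Fin 12 × Fin 12)) : SimpleGraph (Fin 12) :=
  SimpleGraph.fromRel fun x y => (x, y) ∈ E

instance (E : List (Fin 12 × Fin 12)) : DecidableRel (mkG E).Adj := by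
  unfold mkG; infer_instance

lemma conn_of (G : SimpleGraph (Fin 12)) (par : Fin 12 → Fin 12) (d : Fin 12 → ℕ)
    (h : ∀ v, v ≠ 7 → G.Adj v (par v) ∧ d (par v) < d v) : G.Connected := by
  have : ∀ n v, d v = n → G.Reachable v 7 := by
    intro n
    induction n using Nat.strong_induction_on with
    | _ n ih =>
      intro v hv
      by_cases h7 : v = 7
      · rw [h7]
      · exact (h v h7).1.reachable.trans (ih _ (hv ▸ (h v h7).2) _ rfl)
  exact ⟨fun u v => (this _ u rfl).trans (this _ v rfl).symm⟩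

def mkT (E : List (Fin 12 × Fin 12)) (par : Fin 12 → Fin 12) (d : Fin 12 → ℕ)
    (h : ∀ v, v ≠ 7 → (mkG E).Adj v (par v) ∧ d (par v) < d v)
    (h2 : (mkG E).edgeFinset.card = 11)
    (h3 : ∀ v : Fin 12, (mkG E).degree v = if v.val < 7 then 1 else 3) : BT 7 where
  m := 12
  G := mkG E
  lab := Fin.castLE (by norm_num)
  tree := by
    rw [isTree_iff_connected_and_card]
    refine ⟨conn_of _ par d h, ?_⟩
    rw [Nat.card_eq_fintype_card, ← edgeFinset_card, h2]; simp
  deg := fun v => by
    rw [Set.ncard_eq_toFinset_card', ← neighborFinset_def, card_neighborFinset_eq_degree, h3]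
    split_ifs <;> simp
  inj := Fin.castLE_injective _
  leaf := fun v => by
    rw [Set.ncard_eq_toFinset_card', ← neighborFinset_def, card_neighborFinset_eq_degree, h3]
    constructor
    · intro h
      split_ifs at h with hv
      · exact ⟨⟨v.val, hv⟩, rfl⟩
      · omega
    · rintro ⟨i, rfl⟩
      simp

def ET : List (Fin 12 × Fin 12) :=
  [(7, 8), (7, 9), (7, 10), (8, 0), (8, 2), (9, 3), (9, 6), (10, 4), (10, 11), (11, 1), (11, 5)]

def EF : List (Fin 12 × Fin 12) :=
  [(7, 1), (7, 2), (7, 8), (8, 3), (8, 9), (9, 4), (9, 10), (10, 0), (10, 11), (11, 5), (11, 6)]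

def T0 : BT 7 := mkT ET ![8, 11, 8, 9, 10, 11, 9, 7, 7, 7, 7, 10] ![2, 3, 2, 2, 2, 3, 2, 0, 1, 1, 1, 2]
  (by decide +kernel) (by decide +kernel) (by decide +kernel)

def F0 : BT 7 := mkT EF ![10, 7, 7, 8, 9, 11, 11, 7, 7, 8, 9, 10] ![4, 1, 1, 2, 3, 5, 5, 0, 1, 2, 3, 4]
  (by decide +kernel) (by decide +kernel) (by decide +kernel)

lemma F0_cat : IsCat F0 := by
  have hr : ∀ v : Fin 12, v ∈ (Set.range F0.lab)ᶜ ↔ 7 ≤ v.val := by
    intro v
    constructor
    · intro h
      by_contra hv
      exact h ⟨⟨v.val, by omega⟩, rfl⟩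
    · rintro h ⟨i, rfl⟩
      have : i.val < 7 := i.2
      exact absurd (show 7 ≤ i.val from h) (by omega)
  refine ⟨5, ⟨RelIso.symm ⟨⟨fun t => ⟨⟨t.val + 7, by have := t.2; show _ < 12; omega⟩,
    (hr _).2 (by simp)⟩, fun v => ⟨v.1.val - 7, by have : v.1.val < 12 := v.1.2; omega⟩, ?_, ?_⟩, ?_⟩⟩⟩
  · intro t; simp
  · intro v
    have := (hr v.1).1 v.2
    apply Subtype.ext; apply Fin.ext; simp; omega
  · intro t u
    rw [pathGraph_adj]
    have : ∀ t u : Fin 5, (mkG EF).Adj ⟨t.val + 7, by have := t.2; omega⟩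
      ⟨u.val + 7, by have := u.2; omega⟩ ↔ t.val + 1 = u.val ∨ u.val + 1 = t.val := by decide +kernel
    exact this t u

lemma split_of {T : BT 7} {R : Setoid (Fin 7)} (hR : R ∈ Parts T) (f : Fin T.m → Prop) (u : Fin T.m)
    (hf : ∀ x y, T.G.Adj x y → f x → ¬ f y → x = u) (a b c d : Fin 7) (ha : f (T.lab a))
    (hb : ¬ f (T.lab b)) (hc : f (T.lab c)) (hd : ¬ f (T.lab d)) (hab : R a b) (hcd : R c d) :
    R a c := by
  obtain ⟨s, hs⟩ := hR
  have key : ∀ x y, (T.G.deleteEdges s).Reachable x y → f x → ¬ f y →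
      (T.G.deleteEdges s).Reachable x u := by
    rintro x y ⟨p⟩ hx hy
    induction p with
    | nil => exact absurd hx hy
    | @cons x z _ a _ ih =>
      by_cases hz : f z
      · exact a.reachable.trans (ih hz hy)
      · rw [hf x z (deleteEdges_adj.1 a).1 hx hz]
  exact (hs _ _).2 ((key _ _ ((hs _ _).1 hab) ha hb).trans (key _ _ ((hs _ _).1 hcd) hc hd).symm)

lemma split_mask {E : List (Fin 12 × Fin 12)} {par d h h2 h3} {R : Setoid (Fin 7)}
    (hR : R ∈ Parts (mkT E par d h h2 h3)) (X Y : ℕ) (u : Fin 12)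
    (hf : ∀ x y : Fin 12, (mkG E).Adj x y → Y.testBit x = true → ¬ Y.testBit y = true → x = u)
    (hXY : ∀ a : Fin 7, Y.testBit a = X.testBit a) (a b c d' : Fin 7) (ha : X.testBit a = true)
    (hb : ¬ X.testBit b = true) (hc : X.testBit c = true) (hd : ¬ X.testBit d' = true)
    (hab : R a b) (hcd : R c d') : R a c := by
  rw [← hXY] at ha hb hc hd
  exact split_of hR (fun x : Fin 12 => Y.testBit x = true) u hf a b c d' ha hb hc hd hab hcd

lemma rep (R : Setoid (Fin 7)) : ∃ r : Fin 7 → Fin 7, (∀ i, r i ≤ i) ∧ (∀ i, R i (r i)) ∧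
    ∀ i j, R i j ↔ r i = r j := by
  classical
  have hne : ∀ i, (univ.filter fun j => R i j).Nonempty := fun i => ⟨i, by simp [R.refl]⟩
  have hm : ∀ i, R i ((univ.filter fun j => R i j).min' (hne i)) := fun i =>
    (mem_filter.1 (min'_mem _ (hne i))).2
  refine ⟨fun i => (univ.filter fun j => R i j).min' (hne i), fun i => min'_le _ _ (by simp [R.refl]),
    hm, fun i j => ⟨fun h => ?_, fun h => ?_⟩⟩
  · apply le_antisymm
    · exact min'_le _ _ (mem_filter.2 ⟨mem_univ _, R.trans h (hm j)⟩)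
    · exact min'_le _ _ (mem_filter.2 ⟨mem_univ _, R.trans (R.symm h) (hm i)⟩)
  · have := hm i
    simp only at h
    rw [h] at this
    exact R.trans this (R.symm (hm j))

def kerN (x : ℕ) : Setoid (Fin 7) := Setoid.ker fun i : Fin 7 => dg x i

lemma up_all (b c : ℕ) (hb : b ≤ 1) (hc : c ≤ 2) : upB b c = true := by
  interval_cases b <;> interval_cases c
  exacts [up00, up01, up02, up10, up11, up12]

lemma pair_up : (Parts T0 ∩ Parts F0).ncard ≤ 125 := by
  classical
  have hsub : Parts T0 ∩ Parts F0 ⊆ ((U.map kerN).toFinset : Set (Setoid (Fin 7))) := by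
    rintro R ⟨hT, hF⟩
    obtain ⟨r, r1, r2, r3⟩ := rep R
    have sp : ∀ X ∈ SP, ∀ a b c d : Fin 7, X.testBit a = true → ¬ X.testBit b = true →
        X.testBit c = true → ¬ X.testBit d = true → R a b → R c d → R a c := by
      intro X hX
      simp only [SP, List.mem_cons, List.not_mem_nil, or_false] at hX
      rcases hX with rfl | rfl | rfl | rfl | rfl | rfl | rfl | rfl
      · exact split_mask hT _ 3834 7 (by decide +kernel) (by decide +kernel)
      · exact split_mask hT _ 3122 10 (by decide +kernel) (by decide +kernel)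
      · exact split_mask hT _ 2082 11 (by decide +kernel) (by decide +kernel)
      · exact split_mask hT _ 584 9 (by decide +kernel) (by decide +kernel)
      · exact split_mask hF _ 134 7 (by decide +kernel) (by decide +kernel)
      · exact split_mask hF _ 398 8 (by decide +kernel) (by decide +kernel)
      · exact split_mask hF _ 926 9 (by decide +kernel) (by decide +kernel)
      · exact split_mask hF _ 2144 11 (by decide +kernel) (by decide +kernel)
    have r0 : (r 0).val = 0 := by have : (r 0).val ≤ 0 := r1 0; omega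
    set l : ℕ := enc 0 (r 1) (r 2) (r 3) (r 4) (r 5) (r 6) with hl
    have hget : ∀ i : Fin 7, dg l i = (r i).val := by
      have := dg_enc (fun i => (r i).val) fun i => by have := (r i).2; omega
      rw [hl, ← r0]
      exact this
    have hmem : ∀ a ∈ R7, ∃ i : Fin 7, a = i.val := by decide
    have h := up_all (r 1) (r 2) (r1 1) (r1 2)
    simp only [upB, List.all_eq_true, List.mem_range, Bool.or_eq_true, List.any_eq_true,
      Bool.not_eq_true', Nat.beq_eq] at h
    have h := h (r 3)
      (Nat.lt_succ_of_le (r1 3)) (r 4) (Nat.lt_succ_of_le (r1 4)) (r 5) (Nat.lt_succ_of_le (r1 5))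
      (r 6) (Nat.lt_succ_of_le (r1 6))
    have i1 : idem l = true := by
      simp only [idem, List.all_eq_true, Nat.beq_eq]
      intro a ha
      obtain ⟨i, rfl⟩ := hmem a ha
      rw [hget, hget, ← (r3 _ _).1 (r2 i)]
    have i2 : spl l = true := by
      simp only [spl, List.all_eq_true, Bool.or_eq_true, Nat.beq_eq, Bool.not_eq_true']
      intro X hX a ha
      obtain ⟨a, rfl⟩ := hmem a ha
      by_cases h1 : X.testBit a = true
      swap
      · left; simpa using h1
      right
      intro b hb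
      obtain ⟨b, rfl⟩ := hmem b hb
      by_cases h2 : X.testBit b = true
      · left; left; exact h2
      by_cases h3 : R a b
      swap
      · left; right
        rw [hget, hget]
        exact Bool.eq_false_iff.2 fun e => h3 ((r3 _ _).2 (Fin.ext (Nat.eq_of_beq_eq_true e)))
      right
      intro c hc
      obtain ⟨c, rfl⟩ := hmem c hc
      by_cases h4 : X.testBit c = true
      swap
      · left; left; simpa using h4
      by_cases h7 : R a c
      · left; right
        rw [hget, hget, (r3 _ _).1 h7]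
      right
      intro d hd
      obtain ⟨d, rfl⟩ := hmem d hd
      by_cases h5 : X.testBit d = true
      · left; exact h5
      right
      rw [hget, hget]
      exact Bool.eq_false_iff.2 fun e => h7 (sp X hX a b c d h1 h2 h4 h5 h3
        ((r3 _ _).2 (Fin.ext (Nat.eq_of_beq_eq_true e))))
    rw [← hl, i1, i2] at h
    have hU : l ∈ U := by simpa using h
    simp only [List.coe_toFinset, List.mem_map, Set.mem_ofPred_eq]
    refine ⟨l, hU, ?_⟩
    ext i j
    show dg l i = dg l j ↔ _
    rw [hget, hget, r3, Fin.val_inj]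
  calc _ ≤ _ := Set.ncard_le_ncard hsub (Set.toFinite _)
    _ = (U.map kerN).toFinset.card := Set.ncard_coe_finset _
    _ ≤ (U.map kerN).length := List.toFinset_card_le _
    _ = 125 := by rw [List.length_map, U_len]

theorem result : sMin 7 < cMin 7 := by
  have h1 : sMin 7 ≤ 125 := le_trans (Nat.sInf_le (show ∃ T F : BT 7, _ = (Parts T ∩ Parts F).ncard from ⟨T0, F0, rfl⟩)) pair_up
  have h2 : 126 ≤ cMin 7 := by
    refine le_csInf ⟨_, F0, F0, F0_cat, F0_cat, rfl⟩ ?_
    rintro x ⟨T, F, hT, hF, rfl⟩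
    exact cat_low T F hT hF
  omega

end Pool.Agent.Results.MP_6c0529_co.Counter
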